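import Pool.Agent.H14.SB.Defs
import Pool.Agent.H8.SV.Main

/-!
# The map from singular chains to the bar complex is a chain map
-/

open scoped Topology
open CategoryTheory

noncomputable section

namespace Pool.Agent.H14.SB

open Pool.Agent.H8

variable {n : ℕ}

instance instSCSimplex (n : ℕ) : SimplyConnectedSpace (Splx n) := by
  haveI : ContractibleSpace (stdSimplex ℝ (Fin (n + 1))) :=
    (convex_stdSimplex ℝ (Fin (n + 1))).contractibleSpace
      ⟨_, (stdSimplex.vertex (S := ℝ) (0 : Fin (n + 1))).2⟩
  exact inferInstanceAs (SimplyConnectedSpace (stdSimplex ℝ (Fin (n + 1))))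

section

variable {X : Type} [TopologicalSpace X]

/-- the arrow of a path -/
def arr {a b : X} (p : Path a b) : FundamentalGroupoid.mk a ⟶ FundamentalGroupoid.mk b :=
  Path.Homotopic.Quotient.mk p

lemma arr_trans {a b c : X} (p : Path a b) (q : Path b c) : arr (p.trans q) = arr p ≫ arr q := rfl

lemma arr_symm {a b : X} (p : Path a b) : arr p.symm = Groupoid.inv (arr p) := rfl

lemma arr_congr {a b : X} {p q : Path a b} (h : p.Homotopic q) : arr p = arr q :=
  Quotient.sound h

/-- the arrow of an edge -/
def edgeArr (σ : Simp X n) (a b : Splx n) :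
    FundamentalGroupoid.mk (σ a) ⟶ FundamentalGroupoid.mk (σ b) :=
  arr ((PathConnectedSpace.somePath a b).map σ.continuous)

lemma edgeArr_eq (σ : Simp X n) {a b : Splx n} (p : Path a b) :
    edgeArr σ a b = arr (p.map σ.continuous) :=
  arr_congr ((SimplyConnectedSpace.paths_homotopic (PathConnectedSpace.somePath a b) p).map σ)

lemma edgeArr_trans (σ : Simp X n) (a b c : Splx n) :
    edgeArr σ a b ≫ edgeArr σ b c = edgeArr σ a c := by
  rw [edgeArr_eq σ ((PathConnectedSpace.somePath a b).trans (PathConnectedSpace.somePath b c)),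
    Path.map_trans]
  rfl

end

variable (N : PMfd)

/-- the arrow of the chosen path -/
def con (x : N.X) : FundamentalGroupoid.mk N.x ⟶ FundamentalGroupoid.mk x :=
  arr (PathConnectedSpace.somePath N.x x)

/-- an element of the fundamental group as an arrow -/
def toArr (g : N.π) : FundamentalGroupoid.mk N.x ⟶ FundamentalGroupoid.mk N.x :=
  (show FundamentalGroup N.X N.x from g)

lemma toArr_mul (g h : N.π) : toArr N (g * h) = toArr N h ≫ toArr N g := rfl

lemma toArr_inj {g h : N.π} (e : toArr N g = toArr N h) : g = h := e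

lemma edge_eq (σ : Simp N.X n) (a b : Splx n) :
    toArr N (N.edge σ a b) = con N (σ b) ≫ edgeArr σ b a ≫ Groupoid.inv (con N (σ a)) := rfl

lemma edge_mul (σ : Simp N.X n) (a b c : Splx n) :
    N.edge σ a b * N.edge σ b c = N.edge σ a c := by
  apply toArr_inj
  rw [toArr_mul, edge_eq, edge_eq, edge_eq, ← edgeArr_trans σ c b a]
  simp [Category.assoc]

lemma edge_comp {m : ℕ} (σ : Simp N.X n) (δ : C(Splx m, Splx n))
    (a b : Splx m) : N.edge (σ.comp δ : Simp N.X m) a b = N.edge σ (δ a) (δ b) := by
  have h : (edgeArr (σ.comp δ : Simp N.X m) b a :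
      FundamentalGroupoid.mk (σ (δ b)) ⟶ FundamentalGroupoid.mk (σ (δ a)))
      = edgeArr σ (δ b) (δ a) := by
    rw [edgeArr_eq σ ((PathConnectedSpace.somePath b a).map δ.continuous)]
    rfl
  apply toArr_inj
  show con N (σ (δ b)) ≫ edgeArr (σ.comp δ : Simp N.X m) b a ≫ Groupoid.inv (con N (σ (δ a))) =
    con N (σ (δ b)) ≫ edgeArr σ (δ b) (δ a) ≫ Groupoid.inv (con N (σ (δ a)))
  rw [h]

lemma coface_vertex (i : Fin (n + 2)) (j : Fin (n + 1)) :
    coface n i (Splx.vertex j) = Splx.vertex (i.succAbove j) :=
  stdSimplex.map_vertex _ _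

lemma edges_sface (σ : Simp N.X (n + 1)) (i : Fin (n + 2)) :
    N.edges (sface σ i) = face (N.edges σ) i := by
  funext j
  have h1 : N.edges (sface σ i) j =
      N.edge σ (Splx.vertex (i.succAbove j.castSucc)) (Splx.vertex (i.succAbove j.succ)) := by
    show N.edge (σ.comp (coface n i) : Simp N.X n) _ _ = _
    rw [edge_comp, coface_vertex, coface_vertex]
  rw [h1]
  refine Fin.cases ?_ (fun k => ?_) i
  · show _ = N.edges σ j.succ
    show _ = N.edge σ (Splx.vertex j.succ.castSucc) (Splx.vertex j.succ.succ)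
    rw [Fin.succAbove_zero_apply, Fin.succAbove_zero_apply, Fin.succ_castSucc]
  · show _ = Fin.contractNth k (· * ·) (N.edges σ) j
    rcases lt_trichotomy (j : ℕ) (k : ℕ) with hlt | heq | hgt
    · rw [Fin.contractNth_apply_of_lt _ _ _ _ hlt]
      show _ = N.edge σ (Splx.vertex j.castSucc.castSucc) (Splx.vertex j.castSucc.succ)
      have e1 : (k.succ : Fin (n + 2)).succAbove j.castSucc = j.castSucc.castSucc := by
        apply Fin.succAbove_of_castSucc_lt
        rw [Fin.lt_def]; simp; omega
      have e2 : (k.succ : Fin (n + 2)).succAbove j.succ = j.castSucc.succ := by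
        rw [Fin.succAbove_of_castSucc_lt _ _ (by rw [Fin.lt_def]; simp; omega)]
        rfl
      rw [e1, e2]
    · rw [Fin.contractNth_apply_of_eq _ _ _ _ heq]
      show _ = N.edge σ (Splx.vertex j.castSucc.castSucc) (Splx.vertex j.castSucc.succ) *
        N.edge σ (Splx.vertex j.succ.castSucc) (Splx.vertex j.succ.succ)
      have e1 : (k.succ : Fin (n + 2)).succAbove j.castSucc = j.castSucc.castSucc := by
        apply Fin.succAbove_of_castSucc_lt
        rw [Fin.lt_def]; simp; omega
      have e2 : (k.succ : Fin (n + 2)).succAbove j.succ = j.succ.succ := by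
        apply Fin.succAbove_of_le_castSucc
        rw [Fin.le_def]; simp; omega
      have e3 : (j.castSucc.succ : Fin (n + 2)) = j.succ.castSucc := rfl
      rw [e1, e2, e3, edge_mul]
    · rw [Fin.contractNth_apply_of_gt _ _ _ _ hgt]
      show _ = N.edge σ (Splx.vertex j.succ.castSucc) (Splx.vertex j.succ.succ)
      have e1 : (k.succ : Fin (n + 2)).succAbove j.castSucc = j.succ.castSucc := by
        rw [Fin.succAbove_of_le_castSucc _ _ (by rw [Fin.le_def]; simp; omega)]
        rfl
      have e2 : (k.succ : Fin (n + 2)).succAbove j.succ = j.succ.succ := by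
        apply Fin.succAbove_of_le_castSucc
        rw [Fin.le_def]; simp; omega
      rw [e1, e2]

/-! ### The chain map -/

lemma sbdry_single {X : Type} [TopologicalSpace X] {R : Type} [CommRing R] (σ : Simp X (n + 1))
    (a : R) : sbdry (Finsupp.single σ a) =
      ∑ i : Fin (n + 2), Finsupp.single (sface σ i) ((-1) ^ (i : ℕ) * a) := by
  rw [sbdry, Finsupp.sum_single_index]
  simp

lemma sbdry_add {X : Type} [TopologicalSpace X] {R : Type} [CommRing R] (c d : SChain R X (n + 1)) :
    sbdry (c + d) = sbdry c + sbdry d := by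
  rw [sbdry, sbdry, sbdry, Finsupp.sum_add_index']
  · intro σ; simp
  · intro σ a b
    rw [← Finset.sum_add_distrib]
    refine Finset.sum_congr rfl fun i _ => ?_
    rw [← Finsupp.single_add, mul_add]

lemma bbdry_eq {R : Type} [CommRing R] {G : Type} [Mul G] (c : BChain R G (n + 1)) :
    bbdry c = SV.bdry R G n c := by
  rw [SV.bdry, Finsupp.linearCombination_apply, bbdry]
  refine Finsupp.sum_congr fun g _ => ?_
  rw [SV.bdrySingle, Finset.smul_sum]
  refine Finset.sum_congr rfl fun i _ => ?_
  rw [Finsupp.smul_single, smul_eq_mul, mul_comm]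
  rfl

lemma bbdry_add {R : Type} [CommRing R] {G : Type} [Mul G] (c d : BChain R G (n + 1)) :
    bbdry (c + d) = bbdry c + bbdry d := by
  rw [bbdry_eq, bbdry_eq, bbdry_eq, map_add]

lemma bbdry_single {R : Type} [CommRing R] {G : Type} [Mul G] (g : Fin (n + 1) → G) (a : R) :
    bbdry (Finsupp.single g a) =
      ∑ i : Fin (n + 2), Finsupp.single (face g i) ((-1) ^ (i : ℕ) * a) := by
  rw [bbdry, Finsupp.sum_single_index]
  simp

theorem bbdry_edges (z : SChain ℤ N.X (n + 1)) :
    bbdry (Finsupp.mapDomain N.edges z) = Finsupp.mapDomain N.edges (sbdry z) := by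
  induction z using Finsupp.induction_linear with
  | zero => simp [sbdry, bbdry]
  | add c d hc hd =>
    rw [Finsupp.mapDomain_add, bbdry_add, hc, hd, sbdry_add, Finsupp.mapDomain_add]
  | single σ a =>
    rw [Finsupp.mapDomain_single, bbdry_single, sbdry_single, Finsupp.mapDomain_finset_sum]
    refine Finset.sum_congr rfl fun i _ => ?_
    rw [Finsupp.mapDomain_single, edges_sface]

end Pool.Agent.H14.SB
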