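import Mathlib

/-!
# `S^3`-bundles, flatness, bordism, simplicial volume (MP_0baafd_gt)

Literal definitions of all notions of the question, and of the bar complex.
-/

open scoped Manifold ContDiff Topology

noncomputable section

namespace Pool.Agent.H14.SB

open Bundle

/-! ## Singular chains -/

/-- The standard `n`-simplex. -/
def Splx (n : ℕ) : Type := stdSimplex ℝ (Fin (n + 1))

instance (n : ℕ) : TopologicalSpace (Splx n) :=
  instTopologicalSpaceSubtype (p := (· ∈ stdSimplex ℝ (Fin (n + 1))))

variable {n : ℕ}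

/-- The `i`-th vertex of the standard simplex. -/
def Splx.vertex (i : Fin (n + 1)) : Splx n := stdSimplex.vertex i

/-- The `i`-th face inclusion of the standard simplex. -/
def coface (n : ℕ) (i : Fin (n + 2)) : C(Splx n, Splx (n + 1)) :=
  ⟨stdSimplex.map i.succAbove, stdSimplex.continuous_map _⟩

/-- Singular `n`-simplices of `X`. -/
abbrev Simp (X : Type) [TopologicalSpace X] (n : ℕ) : Type := C(Splx n, X)

variable {X Y : Type} [TopologicalSpace X] [TopologicalSpace Y]

/-- The `i`-th face of a singular simplex. -/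
def sface (σ : Simp X (n + 1)) (i : Fin (n + 2)) : Simp X n := σ.comp (coface n i)

/-- Singular `n`-chains of `X` with coefficients in `R`. -/
abbrev SChain (R : Type) [CommRing R] (X : Type) [TopologicalSpace X] (n : ℕ) : Type :=
  Simp X n →₀ R

/-- The boundary of a singular chain. -/
def sbdry {R : Type} [CommRing R] (c : SChain R X (n + 1)) : SChain R X n :=
  c.sum fun σ a => ∑ i : Fin (n + 2), Finsupp.single (sface σ i) ((-1) ^ (i : ℕ) * a)

/-- The image of a singular chain under a continuous map. -/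
def spush (f : C(X, Y)) (c : SChain ℤ X n) : SChain ℤ Y n := c.mapDomain f.comp

/-- The real chain of an integral chain. -/
def stoReal (z : SChain ℤ X n) : SChain ℝ X n := z.mapRange (fun a : ℤ => (a : ℝ)) Int.cast_zero

/-- The `l^1`-norm of a real chain. -/
def snorm (c : SChain ℝ X n) : ℝ := c.sum fun _ a => |a|

/-- No simplex of the chain meets the point `x`. -/
def Avoids (c : SChain ℤ X n) (x : X) : Prop := ∀ σ ∈ c.support, x ∉ Set.range σ

/-- `z` is a relative cycle modulo the complement of `x`, and its class generates the local homology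
group `H_(n+1)(X, X minus x; ℤ)`. -/
def GeneratesAt (z : SChain ℤ X (n + 1)) (x : X) : Prop :=
  Avoids (sbdry z) x ∧ ∀ c : SChain ℤ X (n + 1), Avoids (sbdry c) x →
    ∃ (k : ℤ) (b : SChain ℤ X (n + 2)), Avoids (c - k • z - sbdry b) x

/-! ## Manifolds and bundles -/

/-- A closed oriented smooth 4-manifold. The orientation is given by a cycle `z` which represents the
fundamental class. -/
structure OMfd where
  X : Type
  [top : TopologicalSpace X]
  [t2 : T2Space X]
  [compact : CompactSpace X]
  [charted : ChartedSpace (EuclideanSpace ℝ (Fin 4)) X]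
  [smooth : IsManifold (𝓡 4) ∞ X]
  z : SChain ℤ X 4
  cycle : sbdry z = 0
  generates : ∀ x, GeneratesAt z x

attribute [instance] OMfd.top OMfd.t2 OMfd.compact OMfd.charted OMfd.smooth

/-- The simplicial volume: the infimum of the `l^1`-norms of the real singular cycles which
represent the fundamental class. -/
def simplicialVolume (M : OMfd) : ℝ :=
  sInf {r | ∃ b : SChain ℝ M.X 5, snorm (stoReal M.z + sbdry b) = r}

/-- The unit sphere `S^3` of `ℝ^4`. -/
def S3 : Type := Metric.sphere (0 : EuclideanSpace ℝ (Fin 4)) 1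

instance : TopologicalSpace S3 :=
  instTopologicalSpaceSubtype (p := (· ∈ Metric.sphere (0 : EuclideanSpace ℝ (Fin 4)) 1))

/-- A homeomorphism of `S^3` is isotopic to the identity: there is a level preserving
homeomorphism of `[0,1] × S^3` which is the identity on the level `0` and `h` on the level `1`. -/
def IsotopicToId (h : S3 ≃ₜ S3) : Prop :=
  ∃ Φ : (unitInterval × S3) ≃ₜ (unitInterval × S3),
    (∀ y, (Φ y).1 = y.1) ∧ (∀ x, (Φ (0, x)).2 = x) ∧ (∀ x, (Φ (1, x)).2 = h x)

/-- An oriented `S^3`-bundle over `B`: a map `p : E → B` with an atlas of local trivialisations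
whose changes of coordinates are homeomorphisms of `S^3` isotopic to the identity. -/
structure S3Bundle (B : Type) [TopologicalSpace B] where
  E : Type
  [top : TopologicalSpace E]
  p : E → B
  atlas : Set (Trivialization S3 p)
  cover : ∀ b, ∃ t ∈ atlas, b ∈ t.baseSet
  oriented : ∀ t ∈ atlas, ∀ t' ∈ atlas, ∀ (b : B) (h : b ∈ t.baseSet) (h' : b ∈ t'.baseSet),
    IsotopicToId (t.coordChangeHomeomorph t' h h')

attribute [instance] S3Bundle.top

/-- `C^0`-flat: the structure group is reduced to `Homeo_0(S^3)` with the discrete topology, that is,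
the changes of coordinates are locally constant. -/
def S3Bundle.IsFlat {B : Type} [TopologicalSpace B] (ξ : S3Bundle B) : Prop :=
  ∀ t ∈ ξ.atlas, ∀ t' ∈ ξ.atlas, ∀ b, b ∈ t.baseSet → b ∈ t'.baseSet →
    ∀ᶠ b' in 𝓝 b, t.coordChange t' b' = t.coordChange t' b

/-- `ξ` is (isomorphic, as an oriented bundle, to) the restriction of `Ξ` along `j`. -/
def IsRestriction {B W : Type} [TopologicalSpace B] [TopologicalSpace W] (ξ : S3Bundle B)
    (Ξ : S3Bundle W) (j : B → W) : Prop :=
  ∃ J : ξ.E → Ξ.E, Continuous J ∧ (∀ y, Ξ.p (J y) = j (ξ.p y)) ∧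
    ∀ t ∈ ξ.atlas, ∀ T ∈ Ξ.atlas, ∀ b, b ∈ t.baseSet → j b ∈ T.baseSet →
      ∃ h : S3 ≃ₜ S3, IsotopicToId h ∧
        ∀ y : S3, (T (J (t.toOpenPartialHomeomorph.symm (b, y)))).2 = h y

/-- A compact oriented smooth 5-manifold `W` with boundary `M ⊔ (-M')`; the orientation of `W` is
given by the relative fundamental cycle `w`. -/
structure Cobordism (M M' : OMfd) where
  W : Type
  [top : TopologicalSpace W]
  [t2 : T2Space W]
  [compact : CompactSpace W]
  [charted : ChartedSpace (EuclideanHalfSpace 5) W]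
  [smooth : IsManifold (𝓡∂ 5) ∞ W]
  j : C(M.X, W)
  j' : C(M'.X, W)
  emb : Manifold.IsSmoothEmbedding (𝓡 4) (𝓡∂ 5) ∞ j
  emb' : Manifold.IsSmoothEmbedding (𝓡 4) (𝓡∂ 5) ∞ j'
  disjoint : Disjoint (Set.range j) (Set.range j')
  boundary : Set.range j ∪ Set.range j' = (𝓡∂ 5).boundary W
  w : SChain ℤ W 5
  sbdry_w : sbdry w = spush j M.z - spush j' M'.z
  generates : ∀ x ∈ (𝓡∂ 5).interior W, GeneratesAt w x

attribute [instance] Cobordism.top

/-- Bordism of `S^3`-bundles over closed oriented 4-manifolds: an oriented `S^3`-bundle over a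
compact oriented 5-manifold with boundary `M ⊔ (-M')` restricts to the given ones. -/
def BundleBordant (M : OMfd) (ξ : S3Bundle M.X) (M' : OMfd) (ξ' : S3Bundle M'.X) : Prop :=
  ∃ (c : Cobordism M M') (Ξ : S3Bundle c.W), IsRestriction ξ Ξ c.j ∧ IsRestriction ξ' Ξ c.j'

/-! ## The group `Homeo_0(S^3)` and holonomy -/

theorem isotopic_mul {h k : S3 ≃ₜ S3} (hh : IsotopicToId h) (hk : IsotopicToId k) :
    IsotopicToId (h * k) := by
  obtain ⟨Φ, h1, h2, h3⟩ := hh
  obtain ⟨Ψ, k1, k2, k3⟩ := hk
  refine ⟨Ψ.trans Φ, fun y => ?_, fun x => ?_, fun x => ?_⟩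
  · rw [Homeomorph.trans_apply, h1, k1]
  · have h5 : Ψ (0, x) = (0, x) := Prod.ext (k1 _) (k2 x)
    rw [Homeomorph.trans_apply, h5, h2]
  · have h5 : Ψ (1, x) = (1, k x) := Prod.ext (k1 _) (k3 x)
    rw [Homeomorph.trans_apply, h5, h3]
    rfl

theorem isotopic_inv {h : S3 ≃ₜ S3} (hh : IsotopicToId h) : IsotopicToId h⁻¹ := by
  obtain ⟨Φ, h1, h2, h3⟩ := hh
  have h4 : ∀ y, (Φ.symm y).1 = y.1 := fun y => by
    have := h1 (Φ.symm y)
    rw [Homeomorph.apply_symm_apply] at this
    exact this.symm
  refine ⟨Φ.symm, h4, fun x => ?_, fun x => ?_⟩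
  · have h5 : Φ (0, x) = (0, x) := Prod.ext (h1 _) (h2 x)
    have h6 : Φ.symm (0, x) = (0, x) := by rw [Homeomorph.symm_apply_eq, h5]
    rw [h6]
  · have h5 : Φ (1, h⁻¹ x) = (1, x) := by
      refine Prod.ext (h1 _) ?_
      rw [h3]
      exact h.apply_symm_apply x
    have h6 : Φ.symm (1, x) = (1, h⁻¹ x) := by rw [Homeomorph.symm_apply_eq, h5]
    rw [h6]

theorem isotopic_one : IsotopicToId 1 :=
  ⟨Homeomorph.refl _, fun _ => rfl, fun _ => rfl, fun _ => rfl⟩

/-- The homeomorphisms of `S^3` isotopic to the identity. -/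
def homeo0 : Subgroup (S3 ≃ₜ S3) where
  carrier := {h | IsotopicToId h}
  mul_mem' := isotopic_mul
  one_mem' := isotopic_one
  inv_mem' := isotopic_inv

/-- The (discrete) group `Homeo_0(S^3)`. -/
def Homeo0 : Type := homeo0

instance : Group Homeo0 := homeo0.toGroup

/-- A closed connected oriented smooth 4-manifold with a base point. -/
structure PMfd extends OMfd where
  [conn : PathConnectedSpace X]
  x : X

attribute [instance] PMfd.conn

/-- The fundamental group. -/
def PMfd.π (N : PMfd) : Type := FundamentalGroup N.X N.x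

instance (N : PMfd) : Group N.π :=
  CategoryTheory.End.group (X := FundamentalGroupoid.mk N.x)

/-- The class of a loop. -/
def PMfd.loop (N : PMfd) (γ : Path N.x N.x) : N.π := FundamentalGroup.fromPath ⟦γ⟧

/-- A path in the total space is parallel: its fibre coordinates are locally constant. -/
def S3Bundle.IsParallel {B : Type} [TopologicalSpace B] (ξ : S3Bundle B)
    (γ : C(unitInterval, ξ.E)) : Prop :=
  ∀ t ∈ ξ.atlas, ∀ s, ξ.p (γ s) ∈ t.baseSet → ∀ᶠ s' in 𝓝 s, (t (γ s')).2 = (t (γ s)).2

/-- In the trivialisation `t` at the base point, the parallel transport along the loop `γ` is the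
homeomorphism `h`. -/
def TransportsBy (N : PMfd) (ξ : S3Bundle N.X) (t : Trivialization S3 ξ.p) (γ : Path N.x N.x)
    (h : S3 ≃ₜ S3) : Prop :=
  ∀ y : S3, ∃ γ' : C(unitInterval, ξ.E), ξ.IsParallel γ' ∧ (∀ s, ξ.p (γ' s) = γ s) ∧
    (t (γ' 0)).2 = y ∧ (t (γ' 1)).2 = h y

/-- `ξ` is a flat bundle with the holonomy `ρ`: the parallel transport along a loop `γ` is
`ρ [γ]`, in a trivialisation at the base point. -/
def HasHolonomy (N : PMfd) (ξ : S3Bundle N.X) (ρ : N.π →* Homeo0) : Prop :=
  ξ.IsFlat ∧ ∃ t ∈ ξ.atlas, N.x ∈ t.baseSet ∧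
    ∀ γ : Path N.x N.x, TransportsBy N ξ t γ (ρ (N.loop γ)).1

/-! ## The bar complex -/

/-- Chains of degree `n` of the bar complex of `G` with coefficients in `R`. -/
abbrev BChain (R : Type) [CommRing R] (G : Type) (n : ℕ) : Type := (Fin n → G) →₀ R

section bar

variable {R : Type} [CommRing R] {G H : Type} [Mul G]

/-- The faces of an `(n + 1)`-tuple: drop the first entry, multiply two neighbouring entries, drop
the last entry. -/
def face (g : Fin (n + 1) → G) (i : Fin (n + 2)) : Fin n → G :=
  Fin.cases (motive := fun _ => Fin n → G) (fun k => g k.succ)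
    (fun j => Fin.contractNth j (· * ·) g) i

/-- The boundary of a chain of the bar complex. -/
def bbdry (c : BChain R G (n + 1)) : BChain R G n :=
  c.sum fun g a => ∑ i : Fin (n + 2), Finsupp.single (face g i) ((-1) ^ (i : ℕ) * a)

/-- The image of a chain under a map `f : G → H`. -/
def bpush (f : G → H) (c : BChain R G n) : BChain R H n := c.mapDomain fun g i => f (g i)

/-- The `l^1`-seminorm, modulo boundaries, of the real chain of an integral chain. -/
def bnorm (z : BChain ℤ G n) : ℝ :=
  sInf {r | ∃ b : BChain ℝ G (n + 1),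
    ((z.mapRange (fun a : ℤ => (a : ℝ)) Int.cast_zero + bbdry b).sum fun _ a => |a|) = r}

/-- Homologous integral chains. -/
def SameClass (z z' : BChain ℤ G n) : Prop := ∃ b : BChain ℤ G (n + 1), z' = z + bbdry b

/-- A bounded real cochain. -/
def Bounded (f : (Fin n → G) → ℝ) : Prop := ∃ C : ℝ, ∀ g, |f g| ≤ C

/-- The coboundary of a real cochain. -/
def cobdry (f : (Fin n → G) → ℝ) (g : Fin (n + 1) → G) : ℝ :=
  ∑ i : Fin (n + 2), (-1) ^ (i : ℕ) * f (face g i)

end bar

/-! ## The image of the fundamental class in the bar complex -/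

instance (n : ℕ) : PathConnectedSpace (Splx n) :=
  isPathConnected_iff_pathConnectedSpace.1 (isPathConnected_stdSimplex (Fin (n + 1)))

/-- The class of the loop `x → σ b → σ a → x`; the path from `σ b` to `σ a` is the image of a
path in the simplex (all of them are homotopic), the other two paths are chosen once and
for all. -/
def PMfd.edge (N : PMfd) (σ : Simp N.X n) (a b : Splx n) : N.π :=
  N.loop ((PathConnectedSpace.somePath N.x (σ b)).trans
    (((PathConnectedSpace.somePath b a).map σ.continuous).trans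
      (PathConnectedSpace.somePath N.x (σ a)).symm))

/-- The tuple of the edges `01, 12, 23, ...` of a singular simplex in the fundamental group. -/
def PMfd.edges (N : PMfd) (σ : Simp N.X n) : Fin n → N.π :=
  fun i => N.edge σ (Splx.vertex i.castSucc) (Splx.vertex i.succ)

/-- The image of the fundamental cycle in the bar complex of the fundamental group. -/
def PMfd.fund (N : PMfd) : BChain ℤ N.π 4 := N.z.mapDomain N.edges

/-- The class of the homomorphism `ρ` in the bar complex of `Homeo_0(S^3)`. -/
def PMfd.cls (N : PMfd) (ρ : N.π →* Homeo0) : BChain ℤ Homeo0 4 := bpush ρ N.fund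

end Pool.Agent.H14.SB
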