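import Pool.Agent.H14.SB.Defs

/-!
# The published theorems (MP_0baafd_gt)
-/

noncomputable section

namespace Pool.Agent.H14.SB

/-- Bordism of `S^3`-bundles is transitive (glue along a common boundary component; Thom). -/
def BordismTransitive : Prop :=
  ∀ (M₁ : OMfd) (ξ₁ : S3Bundle M₁.X) (M₂ : OMfd) (ξ₂ : S3Bundle M₂.X) (M₃ : OMfd)
    (ξ₃ : S3Bundle M₃.X), BundleBordant M₁ ξ₁ M₂ ξ₂ → BundleBordant M₂ ξ₂ M₃ ξ₃ →
      BundleBordant M₁ ξ₁ M₃ ξ₃

/-- Mather and Thurston, for `C^0`-foliations: every `S^3`-bundle is bordant to a `C^0`-flat one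
(with connected base; its holonomy is a homomorphism `ρ`). -/
def MatherThurston : Prop :=
  ∀ (M : OMfd) (ξ : S3Bundle M.X), ∃ (N : PMfd) (ρ : N.π →* Homeo0) (η : S3Bundle N.X),
    HasHolonomy N η ρ ∧ BundleBordant M ξ N.toOMfd η

/-- Monod and Nariman: `H^4_b(Homeo_0(S^3); ℝ) = 0`, where `Homeo_0(S^3)` is a discrete group. -/
def MonodNariman : Prop :=
  ∀ f : (Fin 4 → Homeo0) → ℝ, Bounded f → cobdry f = 0 →
    ∃ h : (Fin 3 → Homeo0) → ℝ, Bounded h ∧ cobdry h = f

/-- Gromov's mapping theorem: the simplicial volume is the `l^1`-seminorm of the image of the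
fundamental class in the homology of the fundamental group. -/
def GromovMapping : Prop := ∀ N : PMfd, simplicialVolume N.toOMfd = bnorm N.fund

/-- Thom, and surgery: every integral class of degree 4 of every finitely presented group `Γ` is
the image of the fundamental class of a closed connected oriented smooth 4-manifold with fundamental
group `Γ` and with any given signature `s`. -/
def Realisation (sign : OMfd → ℤ) : Prop :=
  ∀ (Γ : Type) [Group Γ] [Group.IsFinitelyPresented Γ] (z : BChain ℤ Γ 4) (s : ℤ), bbdry z = 0 →
    ∃ (N : PMfd) (e : N.π ≃* Γ), sign N.toOMfd = s ∧ SameClass z (bpush e N.fund)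

/-- The bordism group `Ω_4(BG) = Ω_4 ⊕ H_4(BG; ℤ)` (Thom; Conner and Floyd) for `G = Homeo_0(S^3)`
with the discrete topology: two flat bundles over connected bases are bordant if the signatures of
the bases are equal and the images of the fundamental classes in the homology of `G` are equal; and
every homomorphism `ρ'` is the holonomy of a flat bundle. -/
def FlatBordism (sign : OMfd → ℤ) : Prop :=
  ∀ (N N' : PMfd) (ρ : N.π →* Homeo0) (ρ' : N'.π →* Homeo0) (η : S3Bundle N.X),
    HasHolonomy N η ρ → sign N.toOMfd = sign N'.toOMfd → SameClass (N.cls ρ) (N'.cls ρ') →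
      ∃ η' : S3Bundle N'.X, HasHolonomy N' η' ρ' ∧ BundleBordant N.toOMfd η N'.toOMfd η'

/-- The published theorems which are used. -/
structure Published where
  /-- the signature of a closed oriented 4-manifold -/
  sign : OMfd → ℤ
  transitive : BordismTransitive
  matherThurston : MatherThurston
  monodNariman : MonodNariman
  gromov : GromovMapping
  realisation : Realisation sign
  flatBordism : FlatBordism sign

end Pool.Agent.H14.SB
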