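import Pool.Agent.H14.SB.Facts
import Pool.Agent.H14.SB.Chain

/-!
# The theorem (MP_0baafd_gt)
-/

noncomputable section

namespace Pool.Agent.H14.SB

open Pool.Agent.H8

variable {n : ℕ}

lemma isCycle_fund (N : PMfd) : bbdry N.fund = 0 := by
  rw [PMfd.fund, bbdry_edges, N.cycle, Finsupp.mapDomain_zero]

lemma bnorm_eq {G : Type} [Mul G] (z : BChain ℤ G n) : bnorm z = SV.semi (SV.toReal z) := by
  rw [bnorm, SV.semi]
  congr 1
  ext r
  constructor
  · rintro ⟨b, hb⟩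
    exact ⟨b, by rw [← hb, bbdry_eq]; rfl⟩
  · rintro ⟨b, hb⟩
    exact ⟨b, by rw [← hb, bbdry_eq]; rfl⟩

lemma sameClass_iff {G : Type} [Mul G] (z z' : BChain ℤ G (n + 1)) :
    SameClass z z' ↔ SV.Homologous z z' := by
  constructor
  · rintro ⟨b, hb⟩
    exact ⟨b, by rw [hb, bbdry_eq]⟩
  · rintro ⟨b, hb⟩
    exact ⟨b, by rw [hb, bbdry_eq]⟩

lemma isCycle_iff {G : Type} [Mul G] (z : BChain ℤ G (n + 1)) : bbdry z = 0 ↔ SV.IsCycle z := by
  rw [bbdry_eq]
  rfl

lemma bpush_eq {G H : Type} (f : G → H) (c : BChain ℤ G n) : bpush f c = SV.push ℤ f n c := rfl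

/-- the closed connected oriented 4-manifolds with a base point, as a theory in the sense
of `SmallFlatBases` -/
def theory (P : Published) : SV.FourManifolds.{1} where
  Mfd := PMfd
  π := fun N => N.π
  fund := fun N => N.fund
  isCycle_fund := fun N => (isCycle_iff _).1 (isCycle_fund N)
  sign := fun N => P.sign N.toOMfd
  vol := fun N => simplicialVolume N.toOMfd
  mapping := fun N => by rw [P.gromov N, bnorm_eq]
  realize := by
    intro Γ _ _ z s hz
    obtain ⟨N, e, h1, h2⟩ := P.realisation Γ z s ((isCycle_iff z).2 hz)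
    exact ⟨N, e, h1, (sameClass_iff _ _).1 h2⟩

theorem comparisonZero (P : Published) : SV.ComparisonZero Homeo0 3 := by
  intro f hb hf
  obtain ⟨h, -, hh⟩ := P.monodNariman f hb (funext hf)
  exact ⟨h, fun g => (congrFun hh g).symm⟩

theorem main (P : Published) (ε : ℝ) (hε : 0 < ε) (M : OMfd) (ξ : S3Bundle M.X) :
    ∃ (M' : OMfd) (ξ' : S3Bundle M'.X), PathConnectedSpace M'.X ∧ ξ'.IsFlat ∧
      BundleBordant M ξ M' ξ' ∧ simplicialVolume M' ≤ ε := by
  obtain ⟨N, ρ, η, hol, hb⟩ := P.matherThurston M ξ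
  have hc : SV.IsCycle (N.cls ρ) := by
    show SV.bdry ℤ _ 3 (SV.push ℤ ρ 4 N.fund) = 0
    rw [SV.bdry_push_hom, ← bbdry_eq, isCycle_fund N, map_zero]
  obtain ⟨E, hs, hE, hv⟩ := SV.exists_bundle (theory P) (N.cls ρ) ε (P.sign N.toOMfd)
    (SV.fpRep_eps (comparisonZero P) _ hc ε hε)
  obtain ⟨N', ρ'⟩ := E
  obtain ⟨η', hol', hb'⟩ := P.flatBordism N N' ρ ρ' η hol hs.symm ((sameClass_iff _ _).2 hE)
  exact ⟨N'.toOMfd, η', N'.conn, hol'.1, P.transitive _ _ _ _ _ _ hb hb', hv⟩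

end Pool.Agent.H14.SB
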